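import Pool.Agent.H40.Erp

open Pool.Agent.H40.Fpt Pool.Agent.H40.Erp in
theorem Pool.Agent.Results.MP_fdecab_lc.EdrpImpliesFpt.result :
    ∀ (L : FirstOrder.Language.{0, 0}) (M : Type) [L.Structure M],
      (∀ n, IsEmpty (L.Functions n)) → L.IsUltrahomogeneous M → EDRP L M → FPT L M :=
  fun _ _ _ => fpt_of_edrp
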